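import Pool.Agent.H16.TO.Targets

/-!
# Two-variable logic with counting over linear orders: transfer along bijections
-/

set_option autoImplicit false

namespace Pool.Agent.H71.TO

open Pool.Agent.H16.TO

theorem pf_tr : T_TR := by
  intro n f hf hinj P P' R R' hP hR φ
  have hsurj : ∀ b < n, ∃ a < n, f a = b := by
    have h1 : (Finset.range n).image f = Finset.range n := by
      refine Finset.eq_of_subset_of_card_le ?_ ?_
      · intro b hb
        obtain ⟨a, ha, rfl⟩ := Finset.mem_image.1 hb
        exact Finset.mem_range.2 (hf a (Finset.mem_range.1 ha))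
      · rw [Finset.card_image_of_injOn]
        intro a ha b hb h
        exact hinj a (Finset.mem_range.1 ha) b (Finset.mem_range.1 hb) h
    intro b hb
    have h2 : b ∈ (Finset.range n).image f := by rw [h1]; exact Finset.mem_range.2 hb
    obtain ⟨a, ha, h3⟩ := Finset.mem_image.1 h2
    exact ⟨a, Finset.mem_range.1 ha, h3⟩
  induction φ with
  | un i v =>
    intro s hs
    exact hP i (s v) (hs v)
  | bi i v w =>
    intro s hs
    exact hR i (s v) (hs v) (s w) (hs w)
  | eq v w =>
    intro s hs
    exact ⟨fun h => congrArg f h, fun h => hinj _ (hs v) _ (hs w) h⟩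
  | neg φ ih =>
    intro s hs
    exact not_congr (ih s hs)
  | and φ ψ ih1 ih2 =>
    intro s hs
    exact and_congr (ih1 s hs) (ih2 s hs)
  | cnt k v φ ih =>
    intro s hs
    have hu : ∀ a < n, ∀ w, Function.update s v a w < n := by
      intro a ha w
      by_cases h : w = v
      · subst h
        rw [Function.update_self]
        exact ha
      · rw [Function.update_of_ne h]
        exact hs w
    have hfu : ∀ a, (fun w => f (Function.update s v a w)) =
        Function.update (fun w => f (s w)) v (f a) := by
      intro a
      funext w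
      by_cases h : w = v
      · subst h
        rw [Function.update_self, Function.update_self]
      · rw [Function.update_of_ne h, Function.update_of_ne h]
    have himg : {b | b < n ∧ φ.SatN n P' R' (Function.update (fun w => f (s w)) v b)} =
        f '' {a | a < n ∧ φ.SatN n P R (Function.update s v a)} := by
      ext b
      simp only [Set.mem_ofPred_eq, Set.mem_image]
      constructor
      · rintro ⟨hb, h⟩
        obtain ⟨a, ha, rfl⟩ := hsurj b hb
        refine ⟨a, ⟨ha, (ih _ (hu a ha)).2 ?_⟩, rfl⟩
        rw [hfu a]
        exact h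
      · rintro ⟨a, ⟨ha, h⟩, rfl⟩
        refine ⟨hf a ha, ?_⟩
        rw [← hfu a]
        exact (ih _ (hu a ha)).1 h
    change k ≤ Set.ncard {a | a < n ∧ φ.SatN n P R (Function.update s v a)} ↔
      k ≤ Set.ncard {b | b < n ∧ φ.SatN n P' R' (Function.update (fun w => f (s w)) v b)}
    rw [himg, Set.ncard_image_of_injOn]
    rintro a ⟨ha, -⟩ b ⟨hb, -⟩ h
    exact hinj a ha b hb h

end Pool.Agent.H71.TO
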